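import Mathlib

/-! # Riemann sums for `sinc²` -/

open Filter Topology Set MeasureTheory

namespace RGap.RsumAux

lemma sinc_int (x : ℝ) : Real.sinc x = ∫ t in (0 : ℝ)..1, Real.cos (x * t) := by
  by_cases hx : x = 0
  · subst hx
    simp
  · rw [Real.sinc_of_ne_zero hx, intervalIntegral.integral_comp_mul_left (fun t => Real.cos t) hx]
    rw [integral_cos]
    simp
    field_simp

lemma sinc_lip (x y : ℝ) : |Real.sinc x - Real.sinc y| ≤ |x - y| := by
  rw [sinc_int, sinc_int, ← intervalIntegral.integral_sub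
    (by apply Continuous.intervalIntegrable; fun_prop)
    (by apply Continuous.intervalIntegrable; fun_prop)]
  have h : ∀ t ∈ Set.uIoc (0 : ℝ) 1, ‖Real.cos (x * t) - Real.cos (y * t)‖ ≤ |x - y| := by
    intro t ht
    rw [Set.uIoc_of_le zero_le_one] at ht
    rw [Real.norm_eq_abs]
    have h1 : |Real.cos (x * t) - Real.cos (y * t)| ≤ |x * t - y * t| := by
      have := Real.lipschitzWith_cos.dist_le_mul (x * t) (y * t)
      simpa [Real.dist_eq] using this
    refine h1.trans ?_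
    rw [← sub_mul, abs_mul, abs_of_pos ht.1]
    exact mul_le_of_le_one_right (abs_nonneg _) ht.2
  have := intervalIntegral.norm_integral_le_of_norm_le_const h
  simpa using this

lemma abs_sinc (x : ℝ) : |Real.sinc x| ≤ 1 := abs_le.2 ⟨Real.neg_one_le_sinc x, Real.sinc_le_one x⟩

lemma sinc_sq_le (x : ℝ) : Real.sinc x ^ 2 ≤ 1 := by
  rw [← sq_abs]; exact pow_le_one₀ (abs_nonneg _) (abs_sinc x)

lemma sinc_sq_lip (x y : ℝ) : |Real.sinc x ^ 2 - Real.sinc y ^ 2| ≤ 2 * |x - y| := by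
  have h1 := sinc_lip x y
  have h2 : |Real.sinc x + Real.sinc y| ≤ 2 := by
    refine (abs_add_le _ _).trans ?_
    linarith [abs_sinc x, abs_sinc y]
  rw [sq_sub_sq, abs_mul]
  exact mul_le_mul h2 h1 (abs_nonneg _) (by norm_num)

lemma cont_sinc : Continuous Real.sinc := Real.continuous_sinc

/-- integral over a short interval -/
lemma cell {f : ℝ → ℝ} {K : ℝ} (hf : Continuous f) (hK : ∀ x y, |f x - f y| ≤ K * |x - y|)
    (hK0 : 0 ≤ K) {s t : ℝ} (hst : s ≤ t) :
    |(∫ y in s..t, f y) - (t - s) * f t| ≤ K * (t - s) ^ 2 := by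
  have h1 : (t - s) * f t = ∫ y in s..t, f t := by simp
  rw [h1, ← intervalIntegral.integral_sub (hf.intervalIntegrable _ _)
    (continuous_const.intervalIntegrable _ _)]
  have h : ∀ y ∈ Set.uIoc s t, ‖f y - f t‖ ≤ K * (t - s) := by
    intro y hy
    rw [Set.uIoc_of_le hst] at hy
    rw [Real.norm_eq_abs]
    refine (hK y t).trans ?_
    apply mul_le_mul_of_nonneg_left _ hK0
    rw [abs_sub_comm, abs_of_nonneg (by linarith [hy.2])]
    linarith [hy.1]
  have := intervalIntegral.norm_integral_le_of_norm_le_const h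
  rw [abs_of_nonneg (sub_nonneg.2 hst), Real.norm_eq_abs] at this
  calc _ ≤ K * (t - s) * (t - s) := this
    _ = K * (t - s) ^ 2 := by ring

lemma sqsum (a : ℝ) (ha : 0 < a) (Y : ℝ) (hY : 0 < Y) :
    |a * (∑ m ∈ Finset.Icc 2 ⌊Y / a⌋₊, Real.sinc (a * m) ^ 2) -
      ∫ y in (0 : ℝ)..Y, Real.sinc y ^ 2| ≤ 2 * a * Y + 2 * a := by
  set M := ⌊Y / a⌋₊ with hM
  have hMle : (M : ℝ) * a ≤ Y := by
    have := Nat.floor_le (div_nonneg hY.le ha.le)
    rwa [← hM, le_div_iff₀ ha] at this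
  have hMlt : Y < (M + 1) * a := by
    have := Nat.lt_floor_add_one (Y / a)
    rwa [← hM, div_lt_iff₀ ha] at this
  set h : ℝ → ℝ := fun y => Real.sinc y ^ 2 with hh
  have hc : Continuous h := cont_sinc.pow 2
  have hlip : ∀ x y, |h x - h y| ≤ 2 * |x - y| := sinc_sq_lip
  -- split of the integral
  have e1 : ∫ y in (0 : ℝ)..Y, h y = (∑ k ∈ Finset.range M, ∫ y in (a * k)..(a * (k + 1 : ℕ)), h y) +
      ∫ y in (a * M)..Y, h y := by
    rw [intervalIntegral.sum_integral_adjacent_intervals (a := fun k : ℕ => a * (k : ℝ))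
      (fun k _ => hc.intervalIntegrable _ _)]
    rw [intervalIntegral.integral_add_adjacent_intervals (hc.intervalIntegrable _ _)
      (hc.intervalIntegrable _ _)]
    simp
  have e2 : |∫ y in (a * M)..Y, h y| ≤ a := by
    have h3 : ∀ y ∈ Set.uIoc (a * M) Y, ‖h y‖ ≤ 1 := by
      intro y _
      rw [Real.norm_eq_abs, abs_of_nonneg (sq_nonneg _)]
      exact sinc_sq_le y
    have := intervalIntegral.norm_integral_le_of_norm_le_const h3
    rw [Real.norm_eq_abs, one_mul, abs_of_nonneg (by linarith : (0 : ℝ) ≤ Y - a * M)] at this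
    linarith
  have e3 : |(∑ k ∈ Finset.range M, ∫ y in (a * k)..(a * (k + 1 : ℕ)), h y) -
      ∑ k ∈ Finset.range M, a * h (a * (k + 1 : ℕ))| ≤ M * (2 * a ^ 2) := by
    rw [← Finset.sum_sub_distrib]
    refine (Finset.abs_sum_le_sum_abs _ _).trans ?_
    refine (Finset.sum_le_sum (g := fun _ => 2 * a ^ 2) ?_).trans ?_
    · intro k _
      have h4 := cell hc hlip (by norm_num) (s := a * k) (t := a * (k + 1 : ℕ)) (by
        push_cast; nlinarith)
      have h5 : a * ((k + 1 : ℕ) : ℝ) - a * k = a := by push_cast; ring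
      rw [h5] at h4
      exact h4
    · rw [Finset.sum_const, Finset.card_range, nsmul_eq_mul]
  have e4 : 0 ≤ (∑ k ∈ Finset.range M, a * h (a * (k + 1 : ℕ))) -
      a * (∑ m ∈ Finset.Icc 2 M, h (a * m)) ∧
      (∑ k ∈ Finset.range M, a * h (a * (k + 1 : ℕ))) -
      a * (∑ m ∈ Finset.Icc 2 M, h (a * m)) ≤ a := by
    have h5 : ∑ k ∈ Finset.range M, a * h (a * (k + 1 : ℕ)) =
        ∑ m ∈ Finset.Ico 1 (M + 1), a * h (a * m) := by
      rw [Finset.sum_Ico_eq_sum_range]
      apply Finset.sum_congr (by simp)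
      intro k _
      rw [add_comm]
    rw [h5, Finset.mul_sum]
    rcases Nat.eq_zero_or_pos M with h0 | h0
    · rw [h0]
      simp
      try exact ha.le
    · rw [Finset.sum_eq_sum_Ico_succ_bot (by omega)]
      have h6 : Finset.Icc 2 M = Finset.Ico (1 + 1) (M + 1) := by
        ext x; simp
      rw [h6]
      have h7 : 0 ≤ h (a * (1 : ℕ)) := sq_nonneg _
      have h8 : h (a * (1 : ℕ)) ≤ 1 := sinc_sq_le _
      constructor
      · have : 0 ≤ a * h (a * (1 : ℕ)) := by positivity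
        linarith
      · have : a * h (a * (1 : ℕ)) ≤ a * 1 := mul_le_mul_of_nonneg_left h8 ha.le
        linarith
  have e5 : (M : ℝ) * (2 * a ^ 2) ≤ 2 * a * Y := by
    calc (M : ℝ) * (2 * a ^ 2) = 2 * a * (M * a) := by ring
      _ ≤ 2 * a * Y := by gcongr
  rw [e1]
  rw [abs_le] at e2 e3 ⊢
  constructor
  · linarith [e2.1, e2.2, e3.1, e3.2, e4.1, e4.2]
  · linarith [e2.1, e2.2, e3.1, e3.2, e4.1, e4.2]

lemma harm (M : ℕ) : ∑ m ∈ Finset.Icc 2 M, (1 : ℝ) / m ≤ 2 * √M := by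
  have h1 : ∀ M : ℕ, ∑ m ∈ Finset.Ico 1 (M + 1), (1 : ℝ) / m ≤ 2 * √M := by
    intro M
    induction M with
    | zero => simp
    | succ M ih =>
      rw [Finset.sum_Ico_succ_top (by omega)]
      have h0 : (0 : ℝ) ≤ M := Nat.cast_nonneg M
      have h2 : (1 : ℝ) / ((M + 1 : ℕ) : ℝ) ≤ 2 * √((M + 1 : ℕ) : ℝ) - 2 * √M := by
        push_cast
        set x := √(M : ℝ) with hx
        set y := √((M : ℝ) + 1) with hy
        have hx0 : 0 ≤ x := Real.sqrt_nonneg _
        have hy0 : 1 ≤ y := by rw [hy]; apply Real.one_le_sqrt.2; linarith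
        have hxs : x ^ 2 = M := Real.sq_sqrt h0
        have hys : y ^ 2 = M + 1 := Real.sq_sqrt (by linarith)
        have hxy : x ≤ y := Real.sqrt_le_sqrt (by linarith)
        rw [← hys, div_le_iff₀ (by positivity)]
        have h3 : (y - x) * (y + x) = 1 := by nlinarith
        have h4 : (y - x) * (2 * y) ≥ 1 := by nlinarith
        nlinarith
      linarith
  refine le_trans ?_ (h1 M)
  apply Finset.sum_le_sum_of_subset_of_nonneg
  · intro x hx
    simp only [Finset.mem_Icc, Finset.mem_Ico] at hx ⊢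
    omega
  · intro x _ _
    positivity

lemma sincsum (a : ℝ) (ha : 0 < a) (Y : ℝ) (hY : 0 < Y) :
    |(∑ m ∈ Finset.Icc 2 ⌊Y / a⌋₊, Real.sinc (a * m) *
        ∫ y in (a * m * Real.exp (-1 / m))..(a * m), Real.sinc y) -
      a * (∑ m ∈ Finset.Icc 2 ⌊Y / a⌋₊, Real.sinc (a * m) ^ 2)| ≤ a * Y + √(a * Y) := by
  set M := ⌊Y / a⌋₊ with hM
  have hMle : (M : ℝ) * a ≤ Y := by
    have := Nat.floor_le (div_nonneg hY.le ha.le)
    rwa [← hM, le_div_iff₀ ha] at this
  have h1 : ∀ m ∈ Finset.Icc 2 M, |Real.sinc (a * m) *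
      (∫ y in (a * m * Real.exp (-1 / m))..(a * m), Real.sinc y) - a * Real.sinc (a * m) ^ 2| ≤
      a ^ 2 + a / 2 * (1 / m) := by
    intro m hm
    have hm2 : 2 ≤ m := (Finset.mem_Icc.1 hm).1
    have hm0 : (0 : ℝ) < m := by exact_mod_cast (by omega : 0 < m)
    set e := Real.exp (-1 / (m : ℝ)) with he
    have he1 : 1 - 1 / (m : ℝ) ≤ e := by
      have := Real.add_one_le_exp (-1 / (m : ℝ))
      have h2 : -1 / (m : ℝ) = -(1 / m) := by ring
      rw [h2] at this
      rw [he, h2]; linarith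
    have he2 : e ≤ 1 - 1 / (m : ℝ) + (1 / (m : ℝ)) ^ 2 / 2 := by
      have h2 : -1 / (m : ℝ) = -(1 / m) := by ring
      rw [he, h2]
      have hx : (0 : ℝ) ≤ 1 / m := by positivity
      set x := (1 : ℝ) / m
      -- exp(-x) ≤ 1 - x + x²/2
      have h3 := Real.quadratic_le_exp_of_nonneg hx
      rw [Real.exp_neg, inv_le_comm₀ (Real.exp_pos x) (by nlinarith [sq_nonneg (1 - x)])]
      have h4 : (1 - x + x ^ 2 / 2)⁻¹ ≤ 1 + x + x ^ 2 / 2 := by
        rw [inv_le_iff_one_le_mul₀ (by nlinarith [sq_nonneg (1 - x)])]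
        nlinarith [sq_nonneg (x ^ 2)]
      linarith
    set ℓ := a * m - a * m * e with hℓ
    have hℓ1 : ℓ ≤ a := by
      have : a * m * (1 - 1 / m) ≤ a * m * e := by gcongr
      have h3 : a * m * (1 - 1 / (m : ℝ)) = a * m - a := by field_simp
      linarith
    have hℓ2 : a - a / 2 * (1 / m) ≤ ℓ := by
      have : a * m * e ≤ a * m * (1 - 1 / (m : ℝ) + (1 / (m : ℝ)) ^ 2 / 2) := by gcongr
      have h3 : a * m * (1 - 1 / (m : ℝ) + (1 / (m : ℝ)) ^ 2 / 2) = a * m - a + a / 2 * (1 / m) := by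
        field_simp
      linarith
    have hm2' : (2 : ℝ) ≤ m := by exact_mod_cast hm2
    have hℓ0 : 0 ≤ ℓ := by
      refine le_trans ?_ hℓ2
      have h5 : (1 : ℝ) / m ≤ 1 := by
        rw [div_le_one hm0]; linarith
      nlinarith
    have h2 := cell cont_sinc (K := 1) (fun x y => by simpa using sinc_lip x y) zero_le_one
      (s := a * m * e) (t := a * m) (by linarith)
    rw [← hℓ, one_mul] at h2
    have h3 : |ℓ * Real.sinc (a * m) - a * Real.sinc (a * m)| ≤ a / 2 * (1 / m) := by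
      rw [← sub_mul, abs_mul]
      calc |ℓ - a| * |Real.sinc (a * m)| ≤ |ℓ - a| * 1 :=
            mul_le_mul_of_nonneg_left (abs_sinc _) (abs_nonneg _)
        _ = |ℓ - a| := mul_one _
        _ ≤ a / 2 * (1 / m) := by rw [abs_le]; constructor <;> linarith
    have h4 : |(∫ y in (a * m * e)..(a * m), Real.sinc y) - a * Real.sinc (a * m)| ≤
        a ^ 2 + a / 2 * (1 / m) := by
      calc |(∫ y in (a * m * e)..(a * m), Real.sinc y) - a * Real.sinc (a * m)|
          = |((∫ y in (a * m * e)..(a * m), Real.sinc y) - ℓ * Real.sinc (a * m)) +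
            (ℓ * Real.sinc (a * m) - a * Real.sinc (a * m))| := by ring_nf
        _ ≤ _ := abs_add_le _ _
        _ ≤ ℓ ^ 2 + a / 2 * (1 / m) := add_le_add h2 h3
        _ ≤ a ^ 2 + a / 2 * (1 / m) := by gcongr
    have h5 : Real.sinc (a * m) * (∫ y in (a * m * e)..(a * m), Real.sinc y) -
        a * Real.sinc (a * m) ^ 2 =
        Real.sinc (a * m) * ((∫ y in (a * m * e)..(a * m), Real.sinc y) - a * Real.sinc (a * m)) := by
      ring
    rw [h5, abs_mul]
    calc |Real.sinc (a * m)| * _ ≤ 1 * (a ^ 2 + a / 2 * (1 / m)) :=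
          mul_le_mul (abs_sinc _) h4 (abs_nonneg _) zero_le_one
      _ = _ := one_mul _
  rw [Finset.mul_sum, ← Finset.sum_sub_distrib]
  refine (Finset.abs_sum_le_sum_abs _ _).trans ((Finset.sum_le_sum h1).trans ?_)
  rw [Finset.sum_add_distrib, Finset.sum_const, nsmul_eq_mul, ← Finset.mul_sum]
  have h2 := harm M
  have h3 : ((Finset.Icc 2 M).card : ℝ) ≤ M := by
    have : (Finset.Icc 2 M).card ≤ M := by simp
    exact_mod_cast this
  have h4 : ((Finset.Icc 2 M).card : ℝ) * a ^ 2 ≤ a * Y := by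
    calc ((Finset.Icc 2 M).card : ℝ) * a ^ 2 ≤ M * a ^ 2 := by gcongr
      _ = a * (M * a) := by ring
      _ ≤ a * Y := by gcongr
  have h5 : a * √M ≤ √(a * Y) := by
    apply Real.le_sqrt_of_sq_le
    rw [mul_pow, Real.sq_sqrt (Nat.cast_nonneg M)]
    calc a ^ 2 * (M : ℝ) = a * (M * a) := by ring
      _ ≤ a * Y := by gcongr
  have h6 : a / 2 * ∑ m ∈ Finset.Icc 2 M, (1 : ℝ) / m ≤ a / 2 * (2 * √M) := by gcongr
  linarith

/-- Riemann sums along a sequence of steps tending to zero -/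
theorem main1 (a : ℕ → ℝ) (ha : ∀ n ≥ 1, 0 < a n) (h0 : Tendsto a atTop (𝓝 0)) (Y : ℝ)
    (hY : 0 < Y) :
    Tendsto (fun n => a n * ∑ m ∈ Finset.Icc 2 ⌊Y / a n⌋₊, Real.sinc (a n * m) ^ 2) atTop
      (𝓝 (∫ y in (0 : ℝ)..Y, Real.sinc y ^ 2)) := by
  rw [tendsto_iff_dist_tendsto_zero]
  have h1 : Tendsto (fun n => 2 * a n * Y + 2 * a n) atTop (𝓝 0) := by
    have := ((h0.const_mul 2).mul_const Y).add (h0.const_mul 2)
    simpa using this
  refine squeeze_zero' (Eventually.of_forall fun n => dist_nonneg) ?_ h1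
  filter_upwards [eventually_ge_atTop 1] with n hn
  rw [Real.dist_eq]
  exact sqsum (a n) (ha n hn) Y hY

theorem main2 (a : ℕ → ℝ) (ha : ∀ n ≥ 1, 0 < a n) (h0 : Tendsto a atTop (𝓝 0)) (Y : ℝ)
    (hY : 0 < Y) :
    Tendsto (fun n => ∑ m ∈ Finset.Icc 2 ⌊Y / a n⌋₊, Real.sinc (a n * m) *
        ∫ y in (a n * m * Real.exp (-1 / m))..(a n * m), Real.sinc y) atTop
      (𝓝 (∫ y in (0 : ℝ)..Y, Real.sinc y ^ 2)) := by
  have h1 := main1 a ha h0 Y hY
  have h2 : Tendsto (fun n => (∑ m ∈ Finset.Icc 2 ⌊Y / a n⌋₊, Real.sinc (a n * m) *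
        ∫ y in (a n * m * Real.exp (-1 / m))..(a n * m), Real.sinc y) -
        a n * ∑ m ∈ Finset.Icc 2 ⌊Y / a n⌋₊, Real.sinc (a n * m) ^ 2) atTop (𝓝 0) := by
    have h3 : Tendsto (fun n => a n * Y + √(a n * Y)) atTop (𝓝 0) := by
      have h4 := (h0.mul_const Y).add ((Real.continuous_sqrt.tendsto _).comp (h0.mul_const Y))
      simpa using h4
    refine squeeze_zero_norm' ?_ h3
    filter_upwards [eventually_ge_atTop 1] with n hn
    rw [Real.norm_eq_abs]
    exact sincsum (a n) (ha n hn) Y hY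
  have := h1.add h2
  simpa using this

/-- the integral of `sin (π c u) / u` -/
lemma smI_eq {c w : ℝ} (hc : 0 < c) (hw : 0 < w) {m : ℕ} (hm : 2 ≤ m) :
    (∫ u in (m * w * Real.exp (-1 / m))..(m * w), Real.sin (Real.pi * c * u) / u) =
      ∫ y in (Real.pi * c * w * m * Real.exp (-1 / m))..(Real.pi * c * w * m), Real.sinc y := by
  have hm0 : (0 : ℝ) < m := by exact_mod_cast (by omega : 0 < m)
  have hpc : 0 < Real.pi * c := mul_pos Real.pi_pos hc
  have h1 : (∫ u in (m * w * Real.exp (-1 / m))..(m * w), Real.sin (Real.pi * c * u) / u) =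
      Real.pi * c * ∫ u in (m * w * Real.exp (-1 / m))..(m * w), Real.sinc (Real.pi * c * u) := by
    rw [← intervalIntegral.integral_const_mul]
    apply intervalIntegral.integral_congr
    intro u hu
    have hu0 : 0 < u := by
      have h2 : 0 < m * w * Real.exp (-1 / m) := by positivity
      have h3 : m * w * Real.exp (-1 / m) ≤ m * w := by
        apply mul_le_of_le_one_right (by positivity)
        apply Real.exp_le_one_iff.2
        apply div_nonpos_of_nonpos_of_nonneg (by norm_num) hm0.le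
      rw [Set.uIcc_of_le h3] at hu
      linarith [hu.1]
    simp only
    rw [Real.sinc_of_ne_zero (by positivity)]
    field_simp
  rw [h1, intervalIntegral.mul_integral_comp_mul_left]
  congr 1
  · ring
  · ring

end RGap.RsumAux
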