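import Pool.Agent.H360R2.RG.Stubs
import Pool.Agent.H457R2.RG.RsumAux

/-! # RSUM: Riemann sums for the profile `sinc (π c u)` -/

open Filter Topology Set MeasureTheory

namespace RGap

open RsumAux in
theorem RSUM_proof : RSUM := by
  intro κ c A hκ0 hκ hc hA
  set a : ℕ → ℝ := fun B0 => Real.pi * c * ((1 - κ) / (2 * (B0 : ℝ))) with ha
  have hpc : 0 < Real.pi * c := mul_pos Real.pi_pos hc
  have hw : ∀ n : ℕ, n ≥ 1 → 0 < (1 - κ) / (2 * (n : ℝ)) := by
    intro n hn
    have : (0 : ℝ) < n := by exact_mod_cast hn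
    apply div_pos (by linarith) (by positivity)
  have ha0 : ∀ n ≥ 1, 0 < a n := fun n hn => mul_pos hpc (hw n hn)
  have hlim : Tendsto a atTop (𝓝 0) := by
    have h1 : Tendsto (fun n : ℕ => (1 - κ) / 2 / (n : ℝ)) atTop (𝓝 0) :=
      tendsto_const_div_atTop_nhds_zero_nat _
    have h2 := h1.const_mul (Real.pi * c)
    rw [mul_zero] at h2
    refine h2.congr (fun n => ?_)
    simp only [ha]
    rw [div_div]
  have hY : 0 < Real.pi * A := mul_pos Real.pi_pos hA
  have hfl : ∀ n : ℕ, n ≥ 1 → A / (c * ((1 - κ) / (2 * (n : ℝ)))) = Real.pi * A / a n := by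
    intro n hn
    have h1 := hw n hn
    simp only [ha]
    rw [mul_assoc Real.pi c, mul_div_mul_left _ _ Real.pi_pos.ne']
  constructor
  · refine (main1 a ha0 hlim _ hY).congr' ?_
    filter_upwards [eventually_ge_atTop 1] with n hn
    rw [hfl n hn]
    have h1 : (1 - κ) / (2 * (n : ℝ)) * (Real.pi * c) = a n := by simp only [ha]; ring
    rw [h1]
    congr 1
    apply Finset.sum_congr rfl
    intro m _
    congr 2
    simp only [ha]; ring
  · refine (main2 a ha0 hlim _ hY).congr' ?_
    filter_upwards [eventually_ge_atTop 1] with n hn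
    rw [hfl n hn]
    apply Finset.sum_congr rfl
    intro m hm
    unfold smI
    rw [smI_eq hc (hw n hn) (Finset.mem_Icc.1 hm).1]
    congr 2
    simp only [ha]; ring

end RGap
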